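import Pool.Agent.J6H92.GI.FTb

/-!
# Project GI of helper10: module S_FT
-/

set_option autoImplicit false

open MeasureTheory Set Filter Topology
open scoped ContDiff

namespace Pool.Agent.J6H92.GI

open Pool.Agent.J6H10.GI

variable {W : ℝ → ℝ → ℝ} {C : ℝ}

lemma BB_cont (hW : Wgt W C) {p : ℝ × ℝ} (hδ : 0 < p.1) (hδ1 : p.1 ≤ 1) :
    Continuous (BB W p) := by
  unfold BB
  refine continuous_const.mul ?_
  obtain ⟨i1, i2, i3⟩ := hW.full hδ hδ1 (σ := 1 / 2 + p.1) (by linarith)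
  refine continuous_of_dominated (bound := fun t => 2 * (W p.1 t / ((1 / 2 + p.1) ^ 2 + t ^ 2)))
    (fun ξ => (BB_int hW hδ hδ1 ξ).aestronglyMeasurable)
    (fun ξ => Eventually.of_forall fun t => ?_) (i1.const_mul 2)
    (Eventually.of_forall fun t => by fun_prop)
  have hw : 0 ≤ W p.1 t / ((1 / 2 + p.1) ^ 2 + t ^ 2) := div_nonneg (hW.nonneg _ _) (by positivity)
  rw [norm_mul, Real.norm_eq_abs, Real.norm_eq_abs, abs_of_nonneg hw]
  refine mul_le_mul_of_nonneg_right ?_ hw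
  have e1 := Real.cos_le_one (2 * Real.pi * (t / p.2) * ξ)
  have e2 := Real.neg_one_le_cos (2 * Real.pi * (t / p.2) * ξ)
  rw [abs_of_nonneg (by linarith)]; linarith

lemma bdd_of_cpt {k : ℝ → ℝ} (hk : Continuous k) (hkc : HasCompactSupport k) :
    ∃ M : ℝ, 0 ≤ M ∧ ∀ x, |k x| ≤ M := by
  obtain ⟨M, hM⟩ := hkc.exists_bound_of_continuous hk
  exact ⟨M, (norm_nonneg _).trans (hM 0), hM⟩

theorem t_FT (hPB : S_PB) (hS : S_SINC) : S_FT := by
  intro W C c hW hΦ k hk hkc hke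
  have hC := hW.C_nonneg
  have hpi := Real.pi_pos
  obtain ⟨g, hg⟩ : ∃ g : ℝ → ℝ, g = fun x => x ^ 2 * k x := ⟨_, rfl⟩
  have hgx : ∀ x, g x = x ^ 2 * k x := fun x => by rw [hg]
  have hg1 : ContDiff ℝ ∞ g := by rw [hg]; exact (contDiff_id.pow 2).mul hk
  have hg2 : HasCompactSupport g := by rw [hg]; exact hkc.mul_left
  have hg3 : ∀ x, g (-x) = g x := fun x => by rw [hgx, hgx, hke, neg_sq]
  obtain ⟨G, hGc, hGi, hGi1, hG⟩ := exists_G hg1 hg2 hg3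
  have hg0 : g 0 = 0 := by rw [hgx]; simp
  obtain ⟨K, hK0, hK⟩ := BB_le hPB hW
  obtain ⟨M, hM0, hM⟩ := bdd_of_cpt hk.continuous hkc
  obtain ⟨M', -, hM'⟩ := bdd_of_cpt hg1.continuous hg2
  rw [conv_iff]
  intro a ha
  have hlim : Tendsto (fun p : ℝ × ℝ => ∫ ξ, -(G ξ * BB W p ξ)) (la a)
      (𝓝 (∫ ξ, -(G ξ * (Real.pi ^ 2 * c * |ξ|)))) := by
    refine tendsto_integral_filter_of_dominated_convergence (fun ξ => K * (|ξ| * |G ξ|)) ?_ ?_
      (hGi1.const_mul K) ?_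
    · filter_upwards [ev_small ha 1] with p hp
      exact ((hGc.mul (BB_cont hW hp.2.2.1 hp.2.2.2)).neg).aestronglyMeasurable
    · filter_upwards [ev_small ha 1] with p hp
      refine Eventually.of_forall fun ξ => ?_
      rw [norm_neg, norm_mul, Real.norm_eq_abs, Real.norm_eq_abs]
      have h1 := mul_le_mul_of_nonneg_left (hK p ξ hp.2.2.1 hp.2.2.2 hp.1) (abs_nonneg (G ξ))
      calc |G ξ| * |BB W p ξ| ≤ |G ξ| * (K * |ξ|) := h1
        _ = K * (|ξ| * |G ξ|) := by ring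
    · exact Eventually.of_forall fun ξ => ((BB_lim hPB hW hΦ ha ξ).const_mul (G ξ)).neg
  have hkw : ∀ p : ℝ × ℝ, 0 < p.1 → p.1 ≤ 1 → IntegrableOn (fun t => k (t / p.2) *
      (W p.1 t / ((1 / 2 + p.1) ^ 2 + t ^ 2))) (Ioi 0) := by
    intro p hδ hδ1
    have i1 := (hW.full hδ hδ1 (σ := 1 / 2 + p.1) (by linarith)).1
    refine (int_bdd (μ := volume.restrict (Ioi 0)) i1 (c := fun t => k (t / p.2))
      (hk.continuous.comp (continuous_id.div_const _)) (fun t => hM _)).congr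
      (Eventually.of_forall fun t => mul_comm _ _)
  have hgw : ∀ p : ℝ × ℝ, 0 < p.1 → p.1 ≤ 1 → IntegrableOn (fun t => g (t / p.2) *
      (W p.1 t / ((1 / 2 + p.1) ^ 2 + t ^ 2))) (Ioi 0) := by
    intro p hδ hδ1
    have i1 := (hW.full hδ hδ1 (σ := 1 / 2 + p.1) (by linarith)).1
    refine (int_bdd (μ := volume.restrict (Ioi 0)) i1 (c := fun t => g (t / p.2))
      (hg1.continuous.comp (continuous_id.div_const _)) (fun t => hM' _)).congr
      (Eventually.of_forall fun t => mul_comm _ _)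
  have herr : Tendsto (fun p : ℝ × ℝ => (1 / 2 + p.1) ^ 2 / p.2 *
      ∫ t in Ioi (0 : ℝ), k (t / p.2) * (W p.1 t / ((1 / 2 + p.1) ^ 2 + t ^ 2))) (la a) (𝓝 0) := by
    have h1 : Tendsto (fun p : ℝ × ℝ => (9 / 4 * (M * (8 * C))) / p.2) (la a) (𝓝 0) :=
      (tendsto_snd a).const_div_atTop _
    refine squeeze_zero_norm' ?_ h1
    filter_upwards [ev_small ha 1] with p hp
    have hδ := hp.2.2.1
    have hδ1 := hp.2.2.2
    have hT : 0 < p.2 := by linarith [hp.1]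
    obtain ⟨i1, i2, i3⟩ := hW.full hδ hδ1 (σ := 1 / 2 + p.1) (by linarith)
    have e1 : ‖∫ t in Ioi (0 : ℝ), k (t / p.2) * (W p.1 t / ((1 / 2 + p.1) ^ 2 + t ^ 2))‖ ≤
        ∫ t in Ioi (0 : ℝ), M * (W p.1 t / ((1 / 2 + p.1) ^ 2 + t ^ 2)) := by
      refine norm_integral_le_of_norm_le (i1.const_mul M) (Eventually.of_forall fun t => ?_)
      have hw : 0 ≤ W p.1 t / ((1 / 2 + p.1) ^ 2 + t ^ 2) :=
        div_nonneg (hW.nonneg _ _) (by positivity)
      rw [norm_mul, Real.norm_eq_abs, Real.norm_eq_abs, abs_of_nonneg hw]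
      exact mul_le_mul_of_nonneg_right (hM _) hw
    rw [integral_const_mul] at e1
    have e2 : ‖∫ t in Ioi (0 : ℝ), k (t / p.2) * (W p.1 t / ((1 / 2 + p.1) ^ 2 + t ^ 2))‖ ≤
        M * (8 * C) := e1.trans (mul_le_mul_of_nonneg_left i3 hM0)
    have e3 : (1 / 2 + p.1) ^ 2 ≤ 9 / 4 := by nlinarith
    rw [norm_mul, Real.norm_eq_abs ((1 / 2 + p.1) ^ 2 / p.2),
      abs_of_nonneg (by positivity : 0 ≤ (1 / 2 + p.1) ^ 2 / p.2), div_mul_eq_mul_div]
    refine div_le_div_of_nonneg_right ?_ hT.le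
    exact mul_le_mul e3 e2 (norm_nonneg _) (by norm_num)
  have hval : ∫ ξ, -(G ξ * (Real.pi ^ 2 * c * |ξ|)) = c * ∫ x in Ioi (0 : ℝ), k x := by
    rw [fub_inf hS hGc hGi hGi1 (fun x => by rw [← hgx]; exact hG x), ← integral_const_mul]
    refine integral_congr_ae (Eventually.of_forall fun ξ => ?_)
    show -(G ξ * (Real.pi ^ 2 * c * |ξ|)) = c * -(G ξ * (Real.pi ^ 2 * |ξ|))
    ring
  rw [← hval]
  have hsum := hlim.add herr
  rw [add_zero] at hsum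
  refine hsum.congr' ?_
  filter_upwards [ev_small ha 1] with p hp
  have hδ := hp.2.2.1
  have hδ1 := hp.2.2.2
  have hT : 0 < p.2 := by linarith [hp.1]
  obtain ⟨i1, i2, i3⟩ := hW.full hδ hδ1 (σ := 1 / 2 + p.1) (by linarith)
  have hfub := fub_fin hGc hGi hG hg0 i1 p.2
  have h1 : ∫ ξ, -(G ξ * BB W p ξ) = p.2 * ∫ t in Ioi (0 : ℝ), g (t / p.2) *
      (W p.1 t / ((1 / 2 + p.1) ^ 2 + t ^ 2)) := by
    rw [hfub, ← integral_const_mul]
    refine integral_congr_ae (Eventually.of_forall fun ξ => ?_)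
    unfold BB
    show -(G ξ * (p.2 * _)) = p.2 * -(G ξ * _)
    ring
  have h2 : ∫ t in Ioi (0 : ℝ), k (t / p.2) * W p.1 t =
      (1 / 2 + p.1) ^ 2 * (∫ t in Ioi (0 : ℝ), k (t / p.2) *
        (W p.1 t / ((1 / 2 + p.1) ^ 2 + t ^ 2))) +
      p.2 ^ 2 * ∫ t in Ioi (0 : ℝ), g (t / p.2) * (W p.1 t / ((1 / 2 + p.1) ^ 2 + t ^ 2)) := by
    rw [← integral_const_mul, ← integral_const_mul,
      ← integral_add ((hkw p hδ hδ1).const_mul _) ((hgw p hδ hδ1).const_mul _)]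
    refine integral_congr_ae (Eventually.of_forall fun t => ?_)
    show k (t / p.2) * W p.1 t =
      (1 / 2 + p.1) ^ 2 * (k (t / p.2) * (W p.1 t / ((1 / 2 + p.1) ^ 2 + t ^ 2))) +
      p.2 ^ 2 * (g (t / p.2) * (W p.1 t / ((1 / 2 + p.1) ^ 2 + t ^ 2)))
    rw [hgx]
    have hs : (1 / 2 + p.1) ^ 2 + t ^ 2 ≠ 0 := by positivity
    field_simp
  rw [h1, h2]
  generalize (∫ t in Ioi (0 : ℝ), g (t / p.2) * (W p.1 t / ((1 / 2 + p.1) ^ 2 + t ^ 2))) = I1
  generalize (∫ t in Ioi (0 : ℝ), k (t / p.2) * (W p.1 t / ((1 / 2 + p.1) ^ 2 + t ^ 2))) = I2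
  field_simp
  ring

end Pool.Agent.J6H92.GI
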