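import Pool.Agent.J6H10.GI.Base

/-!
# Project GI of helper10: module S_FT, first part (filters, Fourier inversion, Fubini)
-/

set_option autoImplicit false

open MeasureTheory Set Filter Topology
open scoped ContDiff FourierTransform SchwartzMap

namespace Pool.Agent.J6H92.GI

open Pool.Agent.J6H10.GI

/-! ## the filter of `Conv` -/

/-- the filter of `Conv` -/
noncomputable def la (a : ℝ) : Filter (ℝ × ℝ) :=
  comap Prod.snd atTop ⊓ comap (fun p : ℝ × ℝ => p.1 * Real.log p.2) (𝓝 a)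

instance (a : ℝ) : IsCountablyGenerated (la a) := by unfold la; infer_instance

lemma la_basis (a : ℝ) : (la a).HasBasis (fun q : ℝ × ℝ => True ∧ 0 < q.2)
    (fun q => Prod.snd ⁻¹' Ici q.1 ∩
      (fun p : ℝ × ℝ => p.1 * Real.log p.2) ⁻¹' Metric.ball a q.2) :=
  (atTop_basis.comap _).inf (Metric.nhds_basis_ball.comap _)

theorem conv_iff {F : ℝ → ℝ → ℝ} {γ : ℝ} :
    Conv F γ ↔ ∀ a : ℝ, 0 < a → Tendsto (fun p : ℝ × ℝ => F p.1 p.2) (la a) (𝓝 γ) := by
  constructor
  · intro h a ha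
    rw [Metric.tendsto_nhds]
    intro ε hε
    obtain ⟨η, T₀, hη, h1⟩ := h a ha (ε / 2) (by positivity)
    rw [(la_basis a).eventually_iff]
    refine ⟨(T₀, η), ⟨trivial, hη⟩, ?_⟩
    rintro ⟨δ, T⟩ ⟨h2, h3⟩
    have h4 := h1 δ T h2 (by simpa [Real.dist_eq] using h3)
    show dist (F δ T) γ < ε
    rw [Real.dist_eq]; linarith
  · intro h a ha ε hε
    have h1 := (Metric.tendsto_nhds.1 (h a ha)) ε hε
    rw [(la_basis a).eventually_iff] at h1
    obtain ⟨⟨T₀, η⟩, ⟨-, hη⟩, h2⟩ := h1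
    refine ⟨η, T₀, hη, fun δ T hT hδ => ?_⟩
    have h3 : dist (F δ T) γ < ε := h2 (x := (δ, T)) ⟨hT, by simpa [Real.dist_eq] using hδ⟩
    rw [Real.dist_eq] at h3
    exact h3.le

lemma ev_small {a : ℝ} (ha : 0 < a) (N : ℝ) :
    ∀ᶠ p : ℝ × ℝ in la a, N ≤ p.2 ∧ 3 ≤ p.2 ∧ 0 < p.1 ∧ p.1 ≤ 1 := by
  obtain ⟨η, T₀, hη, h⟩ := Conv_small ha N
  rw [(la_basis a).eventually_iff]
  refine ⟨(T₀, η), ⟨trivial, hη⟩, ?_⟩
  rintro ⟨δ, T⟩ ⟨h2, h3⟩
  obtain ⟨a1, a2, a3, -, a5⟩ := h δ T h2 (by simpa [Real.dist_eq] using h3)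
  exact ⟨a1, a2, a3, a5⟩

lemma tendsto_snd (a : ℝ) : Tendsto (Prod.snd : ℝ × ℝ → ℝ) (la a) atTop :=
  tendsto_comap.mono_left inf_le_left

lemma scale_tendsto {F : ℝ → ℝ → ℝ} {γ : ℝ} (h : Conv F γ) {a : ℝ} (ha : 0 < a)
    {x : ℝ × ℝ → ℝ} {x₀ : ℝ} (hx : Tendsto x (la a) (𝓝 x₀)) (hx0 : 0 < x₀) :
    Tendsto (fun p : ℝ × ℝ => F p.1 (x p * p.2)) (la a) (𝓝 γ) := by
  rw [Metric.tendsto_nhds]
  intro ε hε
  set M : ℝ := max (2 * x₀) (2 / x₀) + 1 with hM
  have hm1 : 2 * x₀ ≤ max (2 * x₀) (2 / x₀) := le_max_left _ _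
  have hm2 : 2 / x₀ ≤ max (2 * x₀) (2 / x₀) := le_max_right _ _
  have h1 : 1 ≤ M := by linarith
  obtain ⟨η, T₀, hη, h2⟩ := Conv_scale h h1 ha (ε := ε / 2) (by positivity)
  have h3 : ∀ᶠ p : ℝ × ℝ in la a, T₀ ≤ p.2 := (tendsto_snd a).eventually_ge_atTop T₀
  have h4 : ∀ᶠ p : ℝ × ℝ in la a, |p.1 * Real.log p.2 - a| < η := by
    have e1 : Tendsto (fun p : ℝ × ℝ => p.1 * Real.log p.2) (la a) (𝓝 a) :=
      tendsto_comap.mono_left inf_le_right
    filter_upwards [e1.eventually (Metric.ball_mem_nhds a hη)] with p hp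
    simpa [Real.dist_eq] using hp
  have h5 : ∀ᶠ p in la a, x p ∈ Icc M⁻¹ M := by
    apply hx.eventually
    apply Icc_mem_nhds
    · rw [inv_lt_comm₀ (by linarith) hx0, ← one_div]
      have : 1 / x₀ < 2 / x₀ := by
        apply div_lt_div_of_pos_right _ hx0
        norm_num
      linarith
    · linarith
  filter_upwards [h3, h4, h5] with p p3 p4 p5
  rw [Real.dist_eq]
  have := h2 p.1 p.2 (x p) p3 p4 p5.1 p5.2
  linarith

/-! ## Fourier inversion for even real functions -/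

lemma int_bdd {μ : Measure ℝ} {f c : ℝ → ℝ} (hf : Integrable f μ) (hc : Continuous c) {K : ℝ}
    (hK : ∀ x, |c x| ≤ K) : Integrable (fun x => f x * c x) μ :=
  (hf.norm.mul_const K).mono' (hf.aestronglyMeasurable.mul hc.aestronglyMeasurable)
    (Eventually.of_forall fun x => by
      rw [norm_mul]; exact mul_le_mul_of_nonneg_left (hK x) (norm_nonneg _))

lemma exists_G {g : ℝ → ℝ} (hg : ContDiff ℝ ∞ g) (hc : HasCompactSupport g)
    (he : ∀ x, g (-x) = g x) : ∃ G : ℝ → ℝ, Continuous G ∧ Integrable G ∧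
      Integrable (fun ξ => |ξ| * |G ξ|) ∧
      ∀ x, g x = ∫ ξ, G ξ * Real.cos (2 * Real.pi * x * ξ) := by
  have hf1 : ContDiff ℝ ∞ (fun x : ℝ => (g x : ℂ)) := Complex.ofRealCLM.contDiff.comp hg
  have hf2 : HasCompactSupport (fun x : ℝ => (g x : ℂ)) :=
    hc.comp_left (g := fun y : ℝ => (y : ℂ)) (by simp)
  set fS : 𝓢(ℝ, ℂ) := hf2.toSchwartzMap hf1 with hfS
  set F : 𝓢(ℝ, ℂ) := 𝓕 fS with hF
  have hinv : ∀ x : ℝ, (g x : ℂ) =
      ∫ v : ℝ, Complex.exp ((↑(2 * Real.pi * x * v) : ℂ) * Complex.I) * F v := by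
    intro x
    have h1 : 𝓕⁻ F = fS := FourierTransform.fourierInv_fourier_eq fS
    have h2 : (fS : ℝ → ℂ) x = (𝓕⁻ F : 𝓢(ℝ, ℂ)) x := by rw [h1]
    rw [SchwartzMap.fourierInv_coe] at h2
    have h3 : (fS : ℝ → ℂ) x = (g x : ℂ) := rfl
    rw [← h3, h2, Real.fourierInv_eq']
    refine integral_congr_ae (Eventually.of_forall fun v => ?_)
    simp only [RCLike.inner_apply, conj_trivial, smul_eq_mul]
    congr 4
    ring
  have hFi : Integrable F := F.integrable
  have hFc : Continuous F := F.continuous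
  have hre : Integrable (fun v => (F v).re) := hFi.re
  have him : Integrable (fun v => (F v).im) := hFi.im
  have hA : ∀ x : ℝ, Integrable (fun v => (F v).re * Real.cos (2 * Real.pi * x * v)) := fun x =>
    int_bdd hre (by fun_prop) (K := 1) fun v => Real.abs_cos_le_one _
  have hB : ∀ x : ℝ, Integrable (fun v => (F v).im * Real.sin (2 * Real.pi * x * v)) := fun x =>
    int_bdd him (by fun_prop) (K := 1) fun v => Real.abs_sin_le_one _
  have hEi : ∀ x : ℝ, Integrable
      (fun v : ℝ => Complex.exp ((↑(2 * Real.pi * x * v) : ℂ) * Complex.I) * F v) := by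
    intro x
    refine hFi.norm.mono' ?_ (Eventually.of_forall fun v => ?_)
    · exact (by fun_prop : Continuous fun v : ℝ =>
        Complex.exp ((↑(2 * Real.pi * x * v) : ℂ) * Complex.I) * F v).aestronglyMeasurable
    · rw [norm_mul, Complex.norm_exp_ofReal_mul_I, one_mul]
  have hg2 : ∀ x : ℝ, g x = (∫ v, (F v).re * Real.cos (2 * Real.pi * x * v)) -
      ∫ v, (F v).im * Real.sin (2 * Real.pi * x * v) := by
    intro x
    rw [← integral_sub (hA x) (hB x)]
    have h1 : g x = (g x : ℂ).re := (Complex.ofReal_re _).symm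
    rw [h1, hinv x]
    have h2 := integral_re (hEi x)
    simp only [RCLike.re_to_complex] at h2
    rw [← h2]
    refine integral_congr_ae (Eventually.of_forall fun v => ?_)
    simp only [Complex.mul_re, Complex.exp_ofReal_mul_I_re, Complex.exp_ofReal_mul_I_im]
    ring
  refine ⟨fun v => (F v).re, by fun_prop, hre, ?_, ?_⟩
  · have h1 := F.integrable_pow_mul volume 1
    refine h1.mono' ?_ (Eventually.of_forall fun v => ?_)
    · exact (by fun_prop : Continuous fun v : ℝ => |v| * |(F v).re|).aestronglyMeasurable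
    · rw [Real.norm_eq_abs, abs_mul, abs_abs, abs_abs, pow_one, Real.norm_eq_abs]
      exact mul_le_mul_of_nonneg_left (Complex.abs_re_le_norm _) (abs_nonneg _)
  · intro x
    have h1 := hg2 x
    have h2 := hg2 (-x)
    rw [he] at h2
    have h3 : (∫ v, (F v).re * Real.cos (2 * Real.pi * -x * v)) =
        ∫ v, (F v).re * Real.cos (2 * Real.pi * x * v) := by
      refine integral_congr_ae (Eventually.of_forall fun v => ?_)
      show (F v).re * Real.cos (2 * Real.pi * -x * v) = (F v).re * Real.cos (2 * Real.pi * x * v)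
      rw [show 2 * Real.pi * -x * v = -(2 * Real.pi * x * v) by ring, Real.cos_neg]
    have h4 : (∫ v, (F v).im * Real.sin (2 * Real.pi * -x * v)) =
        - ∫ v, (F v).im * Real.sin (2 * Real.pi * x * v) := by
      rw [← integral_neg]
      refine integral_congr_ae (Eventually.of_forall fun v => ?_)
      show (F v).im * Real.sin (2 * Real.pi * -x * v) = -((F v).im * Real.sin (2 * Real.pi * x * v))
      rw [show 2 * Real.pi * -x * v = -(2 * Real.pi * x * v) by ring, Real.sin_neg]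
      ring
    rw [h3, h4] at h2
    linarith

/-! ## Fubini -/

/-- the expansion of `g` when `g 0 = 0` -/
lemma g_eq {g G : ℝ → ℝ} (hGi : Integrable G)
    (hG : ∀ x, g x = ∫ ξ, G ξ * Real.cos (2 * Real.pi * x * ξ)) (h0 : g 0 = 0) (x : ℝ) :
    g x = ∫ ξ, -(G ξ * (1 - Real.cos (2 * Real.pi * x * ξ))) := by
  have h1 : ∫ ξ, G ξ = 0 := by
    have := hG 0
    rw [h0] at this
    simpa using this.symm
  have h2 : Integrable (fun ξ => G ξ * Real.cos (2 * Real.pi * x * ξ)) :=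
    int_bdd hGi (by fun_prop) (K := 1) fun v => Real.abs_cos_le_one _
  have h3 : (fun ξ => -(G ξ * (1 - Real.cos (2 * Real.pi * x * ξ)))) =
      fun ξ => G ξ * Real.cos (2 * Real.pi * x * ξ) - G ξ := by
    ext ξ; ring
  rw [h3, integral_sub h2 hGi, h1, sub_zero, ← hG]

/-- Fubini for a finite weight -/
lemma fub_fin {g G w : ℝ → ℝ} (hGc : Continuous G) (hGi : Integrable G)
    (hG : ∀ x, g x = ∫ ξ, G ξ * Real.cos (2 * Real.pi * x * ξ)) (h0 : g 0 = 0)
    (hw : IntegrableOn w (Ioi 0)) (T : ℝ) :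
    ∫ t in Ioi (0 : ℝ), g (t / T) * w t =
      ∫ ξ, -(G ξ * ∫ t in Ioi (0 : ℝ), (1 - Real.cos (2 * Real.pi * (t / T) * ξ)) * w t) := by
  have hint : Integrable (fun q : ℝ × ℝ =>
      -(G q.2 * (1 - Real.cos (2 * Real.pi * (q.1 / T) * q.2))) * w q.1)
      ((volume.restrict (Ioi 0)).prod volume) := by
    have h1 : Integrable (fun q : ℝ × ℝ => w q.1 * G q.2)
        ((volume.restrict (Ioi 0)).prod volume) := hw.mul_prod hGi
    refine (h1.norm.mul_const 2).mono' ?_ (Eventually.of_forall fun q => ?_)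
    · refine AEStronglyMeasurable.mul ?_ hw.aestronglyMeasurable.comp_fst
      exact (by fun_prop : Continuous fun q : ℝ × ℝ =>
        -(G q.2 * (1 - Real.cos (2 * Real.pi * (q.1 / T) * q.2)))).aestronglyMeasurable
    · have h2 : |1 - Real.cos (2 * Real.pi * (q.1 / T) * q.2)| ≤ 2 := by
        have e1 := Real.cos_le_one (2 * Real.pi * (q.1 / T) * q.2)
        have e2 := Real.neg_one_le_cos (2 * Real.pi * (q.1 / T) * q.2)
        rw [abs_of_nonneg (by linarith)]; linarith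
      simp only [Real.norm_eq_abs, abs_mul, abs_neg]
      have h3 : 0 ≤ |w q.1| * |G q.2| := by positivity
      nlinarith [mul_le_mul_of_nonneg_left h2 h3]
  have h1 : ∀ t : ℝ, g (t / T) * w t =
      ∫ ξ, -(G ξ * (1 - Real.cos (2 * Real.pi * (t / T) * ξ))) * w t := by
    intro t
    rw [integral_mul_const, ← g_eq hGi hG h0]
  simp only [h1]
  rw [integral_integral_swap hint]
  refine integral_congr_ae (Eventually.of_forall fun ξ => ?_)
  show ∫ t in Ioi (0 : ℝ), -(G ξ * (1 - Real.cos (2 * Real.pi * (t / T) * ξ))) * w t =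
    -(G ξ * ∫ t in Ioi (0 : ℝ), (1 - Real.cos (2 * Real.pi * (t / T) * ξ)) * w t)
  rw [← neg_mul, ← integral_const_mul]
  refine integral_congr_ae (Eventually.of_forall fun t => ?_)
  show -(G ξ * (1 - Real.cos (2 * Real.pi * (t / T) * ξ))) * w t =
    -G ξ * ((1 - Real.cos (2 * Real.pi * (t / T) * ξ)) * w t)
  ring

lemma cos_abs_eq (c ξ : ℝ) : Real.cos (c * ξ) = Real.cos (c * |ξ|) := by
  rcases abs_cases ξ with ⟨h, -⟩ | ⟨h, -⟩
  · rw [h]
  · rw [h, ← Real.cos_neg]; congr 1; ring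

lemma sinc_scale (hS : S_SINC) (ξ : ℝ) :
    IntegrableOn (fun x : ℝ => (1 - Real.cos (2 * Real.pi * x * ξ)) / x ^ 2) (Ioi 0) ∧
    ∫ x in Ioi (0 : ℝ), (1 - Real.cos (2 * Real.pi * x * ξ)) / x ^ 2 = Real.pi ^ 2 * |ξ| := by
  by_cases hξ : ξ = 0
  · subst hξ; simp
  · set b := 2 * Real.pi * |ξ| with hb
    have hb0 : 0 < b := by
      have := abs_pos.2 hξ
      positivity
    have hf : (fun x : ℝ => (1 - Real.cos (2 * Real.pi * x * ξ)) / x ^ 2) =
        fun x => b ^ 2 * ((1 - Real.cos (b * x)) / (b * x) ^ 2) := by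
      ext x
      have h1 : Real.cos (2 * Real.pi * x * ξ) = Real.cos (b * x) := by
        rw [cos_abs_eq, hb]; congr 1; ring
      rw [h1, mul_pow b x 2, ← mul_div_assoc, mul_div_mul_left _ _ (pow_ne_zero 2 hb0.ne')]
    rw [hf]
    constructor
    · apply Integrable.const_mul
      have := (integrableOn_Ioi_comp_mul_left_iff
        (fun y : ℝ => (1 - Real.cos y) / y ^ 2) 0 hb0).2
      rw [mul_zero] at this
      exact this hS.1
    · rw [integral_const_mul]
      have := integral_comp_mul_left_Ioi (fun y : ℝ => (1 - Real.cos y) / y ^ 2) 0 hb0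
      rw [mul_zero, hS.2] at this
      rw [this, smul_eq_mul, hb]
      have := abs_pos.2 hξ
      field_simp

/-- Fubini for `x ^ (-2)` -/
lemma fub_inf (hS : S_SINC) {k G : ℝ → ℝ} (hGc : Continuous G) (hGi : Integrable G)
    (hGi1 : Integrable (fun ξ => |ξ| * |G ξ|))
    (hG : ∀ x, x ^ 2 * k x = ∫ ξ, G ξ * Real.cos (2 * Real.pi * x * ξ)) :
    ∫ x in Ioi (0 : ℝ), k x = ∫ ξ, -(G ξ * (Real.pi ^ 2 * |ξ|)) := by
  have hint : Integrable (fun q : ℝ × ℝ =>
      -(G q.2 * ((1 - Real.cos (2 * Real.pi * q.1 * q.2)) / q.1 ^ 2)))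
      ((volume.restrict (Ioi 0)).prod volume) := by
    rw [integrable_prod_iff']
    · constructor
      · refine Eventually.of_forall fun ξ => ?_
        exact ((sinc_scale hS ξ).1.const_mul (G ξ)).neg
      · have h1 : (fun ξ : ℝ => ∫ x in Ioi (0 : ℝ),
            ‖-(G ξ * ((1 - Real.cos (2 * Real.pi * x * ξ)) / x ^ 2))‖) =
            fun ξ => Real.pi ^ 2 * (|ξ| * |G ξ|) := by
          ext ξ
          have h2 : (fun x : ℝ => ‖-(G ξ * ((1 - Real.cos (2 * Real.pi * x * ξ)) / x ^ 2))‖) =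
              fun x => |G ξ| * ((1 - Real.cos (2 * Real.pi * x * ξ)) / x ^ 2) := by
            ext x
            rw [norm_neg, norm_mul, Real.norm_eq_abs, Real.norm_eq_abs]
            congr 1
            apply abs_of_nonneg
            apply div_nonneg _ (sq_nonneg x)
            linarith [Real.cos_le_one (2 * Real.pi * x * ξ)]
          rw [h2, integral_const_mul, (sinc_scale hS ξ).2]
          ring
        rw [h1]
        exact hGi1.const_mul _
    · apply Measurable.aestronglyMeasurable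
      have hm : Measurable G := hGc.measurable
      fun_prop
  have h1 : ∀ x ∈ Ioi (0 : ℝ), k x =
      ∫ ξ, -(G ξ * ((1 - Real.cos (2 * Real.pi * x * ξ)) / x ^ 2)) := by
    intro x hx
    have hx0 : (x : ℝ) ≠ 0 := ne_of_gt hx
    have h2 := g_eq (g := fun x => x ^ 2 * k x) hGi hG (by simp) x
    have h3 : (fun ξ => -(G ξ * ((1 - Real.cos (2 * Real.pi * x * ξ)) / x ^ 2))) =
        fun ξ => -(G ξ * (1 - Real.cos (2 * Real.pi * x * ξ))) * (x ^ 2)⁻¹ := by
      ext ξ; ring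
    rw [h3, integral_mul_const, ← h2]
    field_simp
  rw [setIntegral_congr_fun measurableSet_Ioi h1]
  rw [integral_integral_swap hint]
  refine integral_congr_ae (Eventually.of_forall fun ξ => ?_)
  show ∫ x in Ioi (0 : ℝ), -(G ξ * ((1 - Real.cos (2 * Real.pi * x * ξ)) / x ^ 2)) =
    -(G ξ * (Real.pi ^ 2 * |ξ|))
  rw [integral_neg, integral_const_mul, (sinc_scale hS ξ).2]

end Pool.Agent.J6H92.GI
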