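import Pool.Agent.J6H92.GI.FTa

/-!
# Project GI of helper10: module S_FT, second part (the limit)
-/

set_option autoImplicit false

open MeasureTheory Set Filter Topology
open scoped ContDiff

namespace Pool.Agent.J6H92.GI

open Pool.Agent.J6H10.GI

/-- the weighted integral of `1 - cos` -/
noncomputable def BB (W : ℝ → ℝ → ℝ) (p : ℝ × ℝ) (ξ : ℝ) : ℝ :=
  p.2 * ∫ t in Ioi (0 : ℝ), (1 - Real.cos (2 * Real.pi * (t / p.2) * ξ)) *
    (W p.1 t / ((1 / 2 + p.1) ^ 2 + t ^ 2))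

variable {W : ℝ → ℝ → ℝ} {C : ℝ}

lemma KK_id (τ σ t w : ℝ) (hσ : 0 < σ) :
    (1 - Real.cos (τ * t)) * (w / (σ ^ 2 + t ^ 2)) =
      Real.exp (-(σ * τ)) / 2 * (KK τ σ t * w) -
        (Real.cosh (σ * τ) - 1) * (w / (σ ^ 2 + t ^ 2)) := by
  unfold KK
  have hE : Real.exp (τ * σ) ≠ 0 := (Real.exp_pos _).ne'
  have h1 : Real.exp (-(σ * τ)) = (Real.exp (τ * σ))⁻¹ := by
    rw [← Real.exp_neg]; congr 1; ring
  have h2 : Real.cosh (σ * τ) = (Real.exp (τ * σ) + (Real.exp (τ * σ))⁻¹) / 2 := by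
    rw [Real.cosh_eq, h1, mul_comm σ τ]
  have h3 : Real.sin (τ * t / 2) ^ 2 = (1 - Real.cos (τ * t)) / 2 := by
    have h4 := Real.cos_sq (τ * t / 2)
    rw [show 2 * (τ * t / 2) = τ * t by ring] at h4
    have h5 := Real.sin_sq_add_cos_sq (τ * t / 2)
    linarith
  have hs : σ ^ 2 + t ^ 2 ≠ 0 := by positivity
  rw [h1, h2, h3]
  generalize Real.exp (τ * σ) = E at hE ⊢
  generalize Real.cos (τ * t) = c
  field_simp
  ring

lemma cos_int (hPB : S_PB) (hW : Wgt W C) {δ τ : ℝ} (hδ : 0 < δ) (hδ1 : δ ≤ 1) (hτ : 0 < τ)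
    (hτ1 : τ ≤ 1) :
    ∫ t in Ioi (0 : ℝ), (1 - Real.cos (τ * t)) * (W δ t / ((1 / 2 + δ) ^ 2 + t ^ 2)) =
      Real.exp (-((1 / 2 + δ) * τ)) / 2 * Psi W δ τ -
        (Real.cosh ((1 / 2 + δ) * τ) - 1) *
          ∫ t in Ioi (0 : ℝ), W δ t / ((1 / 2 + δ) ^ 2 + t ^ 2) := by
  obtain ⟨K, -, hK⟩ := hPB
  have hσ : 0 < 1 / 2 + δ := by linarith
  have i1 := (hK W C hW δ τ hδ hδ1 hτ hτ1).1
  have i2 := (hW.full hδ hδ1 (σ := 1 / 2 + δ) (by linarith)).1
  unfold Psi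
  rw [← integral_const_mul, ← integral_const_mul, ← integral_sub (i1.const_mul _) (i2.const_mul _)]
  refine integral_congr_ae (Eventually.of_forall fun t => ?_)
  exact KK_id τ (1 / 2 + δ) t (W δ t) hσ

lemma arg_eq (t T ξ : ℝ) : Real.cos (2 * Real.pi * (t / T) * ξ) =
    Real.cos (2 * Real.pi * |ξ| / T * t) := by
  rw [cos_abs_eq]; congr 1; ring

lemma BB_nonneg (hW : Wgt W C) {p : ℝ × ℝ} (hT : 0 < p.2) (ξ : ℝ) : 0 ≤ BB W p ξ := by
  unfold BB
  refine mul_nonneg hT.le (setIntegral_nonneg measurableSet_Ioi fun t _ => mul_nonneg ?_ ?_)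
  · linarith [Real.cos_le_one (2 * Real.pi * (t / p.2) * ξ)]
  · exact div_nonneg (hW.nonneg _ _) (by positivity)

lemma BB_int (hW : Wgt W C) {p : ℝ × ℝ} (hδ : 0 < p.1) (hδ1 : p.1 ≤ 1) (ξ : ℝ) :
    IntegrableOn (fun t => (1 - Real.cos (2 * Real.pi * (t / p.2) * ξ)) *
      (W p.1 t / ((1 / 2 + p.1) ^ 2 + t ^ 2))) (Ioi 0) := by
  have i2 := (hW.full hδ hδ1 (σ := 1 / 2 + p.1) (by linarith)).1
  have := int_bdd (μ := volume.restrict (Ioi 0)) i2
    (c := fun t => 1 - Real.cos (2 * Real.pi * (t / p.2) * ξ)) (by fun_prop) (K := 2) (fun t => by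
      have e1 := Real.cos_le_one (2 * Real.pi * (t / p.2) * ξ)
      have e2 := Real.neg_one_le_cos (2 * Real.pi * (t / p.2) * ξ)
      rw [abs_of_nonneg (by linarith)]; linarith)
  refine this.congr (Eventually.of_forall fun t => ?_)
  exact mul_comm _ _

lemma BB_eq (hPB : S_PB) (hW : Wgt W C) {p : ℝ × ℝ} (hδ : 0 < p.1) (hδ1 : p.1 ≤ 1) {ξ : ℝ}
    (hτ : 0 < 2 * Real.pi * |ξ| / p.2) (hτ1 : 2 * Real.pi * |ξ| / p.2 ≤ 1) :
    BB W p ξ = p.2 * (Real.exp (-((1 / 2 + p.1) * (2 * Real.pi * |ξ| / p.2))) / 2 *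
      Psi W p.1 (2 * Real.pi * |ξ| / p.2) -
        (Real.cosh ((1 / 2 + p.1) * (2 * Real.pi * |ξ| / p.2)) - 1) *
          ∫ t in Ioi (0 : ℝ), W p.1 t / ((1 / 2 + p.1) ^ 2 + t ^ 2)) := by
  unfold BB
  rw [← cos_int hPB hW hδ hδ1 hτ hτ1]
  simp only [arg_eq]

lemma BB_le (hPB : S_PB) (hW : Wgt W C) : ∃ K : ℝ, 0 ≤ K ∧ ∀ (p : ℝ × ℝ) (ξ : ℝ), 0 < p.1 →
    p.1 ≤ 1 → 1 ≤ p.2 → |BB W p ξ| ≤ K * |ξ| := by
  obtain ⟨K, hK0, hK⟩ := id hPB
  have hC := hW.C_nonneg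
  have hpi := Real.pi_pos
  refine ⟨Real.pi * K * C + 32 * Real.pi * C, by positivity, fun p ξ hδ hδ1 hT => ?_⟩
  have hT0 : 0 < p.2 := by linarith
  rw [abs_of_nonneg (BB_nonneg hW hT0 ξ)]
  obtain ⟨i1, i2, i3⟩ := hW.full hδ hδ1 (σ := 1 / 2 + p.1) (by linarith)
  rcases (abs_nonneg ξ).eq_or_lt with h0 | h0
  · have hξ : ξ = 0 := abs_eq_zero.1 h0.symm
    subst hξ
    unfold BB
    simp
  rcases le_or_gt (2 * Real.pi * |ξ| / p.2) 1 with h1 | h1
  · have hτ : 0 < 2 * Real.pi * |ξ| / p.2 := by positivity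
    rw [BB_eq hPB hW hδ hδ1 hτ h1]
    obtain ⟨-, k1, k2⟩ := hK W C hW p.1 _ hδ hδ1 hτ h1
    have e1 : Real.exp (-((1 / 2 + p.1) * (2 * Real.pi * |ξ| / p.2))) ≤ 1 := by
      rw [Real.exp_le_one_iff]
      have : 0 ≤ (1 / 2 + p.1) * (2 * Real.pi * |ξ| / p.2) := by positivity
      linarith
    have e2 : 0 ≤ Real.cosh ((1 / 2 + p.1) * (2 * Real.pi * |ξ| / p.2)) - 1 := by
      linarith [Real.one_le_cosh ((1 / 2 + p.1) * (2 * Real.pi * |ξ| / p.2))]
    have e3 := mul_nonneg e2 i2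
    have e4 : Real.exp (-((1 / 2 + p.1) * (2 * Real.pi * |ξ| / p.2))) / 2 *
        Psi W p.1 (2 * Real.pi * |ξ| / p.2) ≤ 1 / 2 * (K * C * (2 * Real.pi * |ξ| / p.2)) := by
      refine (mul_le_mul_of_nonneg_right (by linarith : _ ≤ (1 : ℝ) / 2) k1).trans ?_
      exact mul_le_mul_of_nonneg_left k2 (by norm_num)
    have e5 : p.2 * (Real.exp (-((1 / 2 + p.1) * (2 * Real.pi * |ξ| / p.2))) / 2 *
        Psi W p.1 (2 * Real.pi * |ξ| / p.2) -
        (Real.cosh ((1 / 2 + p.1) * (2 * Real.pi * |ξ| / p.2)) - 1) *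
          ∫ t in Ioi (0 : ℝ), W p.1 t / ((1 / 2 + p.1) ^ 2 + t ^ 2)) ≤
        p.2 * (1 / 2 * (K * C * (2 * Real.pi * |ξ| / p.2))) :=
      mul_le_mul_of_nonneg_left (by linarith) hT0.le
    refine e5.trans ?_
    have e6 : p.2 * (1 / 2 * (K * C * (2 * Real.pi * |ξ| / p.2))) = Real.pi * K * C * |ξ| := by
      field_simp
    rw [e6]
    have : 0 ≤ 32 * Real.pi * C * |ξ| := by positivity
    linarith
  · rw [lt_div_iff₀ hT0, one_mul] at h1
    unfold BB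
    have e1 : ∫ t in Ioi (0 : ℝ), (1 - Real.cos (2 * Real.pi * (t / p.2) * ξ)) *
        (W p.1 t / ((1 / 2 + p.1) ^ 2 + t ^ 2)) ≤
        ∫ t in Ioi (0 : ℝ), 2 * (W p.1 t / ((1 / 2 + p.1) ^ 2 + t ^ 2)) := by
      refine setIntegral_mono_on (BB_int hW hδ hδ1 ξ) (i1.const_mul 2) measurableSet_Ioi
        fun t _ => ?_
      refine mul_le_mul_of_nonneg_right ?_ (div_nonneg (hW.nonneg _ _) (by positivity))
      linarith [Real.neg_one_le_cos (2 * Real.pi * (t / p.2) * ξ)]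
    rw [integral_const_mul] at e1
    have e2 : p.2 * ∫ t in Ioi (0 : ℝ), (1 - Real.cos (2 * Real.pi * (t / p.2) * ξ)) *
        (W p.1 t / ((1 / 2 + p.1) ^ 2 + t ^ 2)) ≤ p.2 * (16 * C) :=
      mul_le_mul_of_nonneg_left (by linarith) hT0.le
    refine e2.trans ?_
    have e3 : p.2 * (16 * C) ≤ (2 * Real.pi * |ξ|) * (16 * C) :=
      mul_le_mul_of_nonneg_right h1.le (by positivity)
    have : 0 ≤ Real.pi * K * C * |ξ| := by positivity
    nlinarith

lemma BB_lim (hPB : S_PB) (hW : Wgt W C) {c : ℝ} (hΦ : Conv (Phi W) (2 * c)) {a : ℝ} (ha : 0 < a)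
    (ξ : ℝ) : Tendsto (fun p => BB W p ξ) (la a) (𝓝 (Real.pi ^ 2 * c * |ξ|)) := by
  have hpi := Real.pi_pos
  by_cases hξ : ξ = 0
  · subst hξ
    unfold BB
    simp only [mul_zero, Real.cos_zero, sub_self, zero_mul, integral_zero, abs_zero]
    exact tendsto_const_nhds
  have hξ0 : 0 < |ξ| := abs_pos.2 hξ
  have hC := hW.C_nonneg
  set b := 2 * Real.pi * |ξ| with hb
  have hb0 : 0 < b := by positivity
  have hT := tendsto_snd a
  have hτ : Tendsto (fun p : ℝ × ℝ => b / p.2) (la a) (𝓝 0) := hT.const_div_atTop b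
  -- `T (e^τ - 1) → b`
  have hslope : Tendsto (fun τ : ℝ => (Real.exp τ - 1) / τ) (𝓝[≠] 0) (𝓝 1) := by
    have h1 := (Real.hasDerivAt_exp 0).tendsto_slope_zero
    simp only [Real.exp_zero, zero_add, smul_eq_mul] at h1
    refine h1.congr fun τ => ?_
    rw [inv_mul_eq_div]
  have hτne : Tendsto (fun p : ℝ × ℝ => b / p.2) (la a) (𝓝[≠] 0) := by
    refine tendsto_nhdsWithin_iff.2 ⟨hτ, ?_⟩
    filter_upwards [ev_small ha 1] with p hp
    have : 0 < p.2 := by linarith [hp.1]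
    exact (div_pos hb0 this).ne'
  have hTe : Tendsto (fun p : ℝ × ℝ => p.2 * (Real.exp (b / p.2) - 1)) (la a) (𝓝 b) := by
    have h1 := (hslope.comp hτne).const_mul b
    rw [mul_one] at h1
    refine h1.congr' ?_
    filter_upwards [ev_small ha 1] with p hp
    have : 0 < p.2 := by linarith [hp.1]
    simp only [Function.comp]
    field_simp
  -- the values of `Phi`
  have hx : Tendsto (fun p : ℝ × ℝ => (p.2 * (Real.exp (b / p.2) - 1))⁻¹) (la a) (𝓝 b⁻¹) :=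
    hTe.inv₀ hb0.ne'
  have hP := scale_tendsto hΦ ha hx (by positivity)
  -- the exponential factor
  have hexp : Tendsto (fun p : ℝ × ℝ => Real.exp (-((1 / 2 + p.1) * (b / p.2)))) (la a) (𝓝 1) := by
    have h0 : Tendsto (fun p : ℝ × ℝ => (1 / 2 + p.1) * (b / p.2)) (la a) (𝓝 0) := by
      have h1 : Tendsto (fun p : ℝ × ℝ => 3 / 2 * (b / p.2)) (la a) (𝓝 0) := by
        simpa using hτ.const_mul (3 / 2)
      refine squeeze_zero' ?_ ?_ h1
      · filter_upwards [ev_small ha 1] with p hp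
        have : 0 < p.2 := by linarith [hp.1]
        have := hp.2.2.1
        positivity
      · filter_upwards [ev_small ha 1] with p hp
        have : 0 < p.2 := by linarith [hp.1]
        have h2 : 0 < b / p.2 := by positivity
        exact mul_le_mul_of_nonneg_right (by linarith [hp.2.2.2]) h2.le
    have := (Real.continuous_exp.tendsto _).comp h0.neg
    rw [neg_zero, Real.exp_zero] at this
    exact this
  -- the error term
  have herr : Tendsto (fun p : ℝ × ℝ => p.2 * ((Real.cosh ((1 / 2 + p.1) * (b / p.2)) - 1) *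
      ∫ t in Ioi (0 : ℝ), W p.1 t / ((1 / 2 + p.1) ^ 2 + t ^ 2))) (la a) (𝓝 0) := by
    have h1 : Tendsto (fun p : ℝ × ℝ => (9 / 4 * b ^ 2 * (8 * C)) / p.2) (la a) (𝓝 0) :=
      hT.const_div_atTop _
    refine squeeze_zero' ?_ ?_ h1
    · filter_upwards [ev_small ha 1] with p hp
      have h2 : 0 < p.2 := by linarith [hp.1]
      obtain ⟨-, i2, -⟩ := hW.full hp.2.2.1 hp.2.2.2 (σ := 1 / 2 + p.1) (by linarith [hp.2.2.1])
      have := Real.one_le_cosh ((1 / 2 + p.1) * (b / p.2))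
      exact mul_nonneg h2.le (mul_nonneg (by linarith) i2)
    · filter_upwards [ev_small ha 1, ev_small ha (3 / 2 * b)] with p hp hp2
      have h2 : 0 < p.2 := by linarith [hp.1]
      obtain ⟨-, i2, i3⟩ := hW.full hp.2.2.1 hp.2.2.2 (σ := 1 / 2 + p.1) (by linarith [hp.2.2.1])
      set y := (1 / 2 + p.1) * (b / p.2) with hy
      have hy0 : 0 ≤ y := by have := hp.2.2.1; positivity
      have hy1 : y ≤ 3 / 2 * (b / p.2) :=
        mul_le_mul_of_nonneg_right (by linarith [hp.2.2.2]) (by positivity)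
      have hy2 : y ≤ 1 := by
        refine hy1.trans ?_
        rw [← mul_div_assoc, div_le_one h2]
        exact hp2.1
      have hcosh : Real.cosh y - 1 ≤ y ^ 2 := by
        rw [Real.cosh_eq]
        have e1 := Real.abs_exp_sub_one_sub_id_le (x := y) (by rw [abs_of_nonneg hy0]; exact hy2)
        have e2 := Real.abs_exp_sub_one_sub_id_le (x := -y) (by
          rw [abs_neg, abs_of_nonneg hy0]; exact hy2)
        rw [abs_le] at e1 e2
        have e3 := e1.2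
        have e4 := e2.2
        nlinarith
      have hc0 : 0 ≤ Real.cosh y - 1 := by linarith [Real.one_le_cosh y]
      have hy3 : y ^ 2 ≤ (3 / 2 * (b / p.2)) ^ 2 := pow_le_pow_left₀ hy0 hy1 2
      calc p.2 * ((Real.cosh y - 1) * ∫ t in Ioi (0 : ℝ), W p.1 t / ((1 / 2 + p.1) ^ 2 + t ^ 2))
          ≤ p.2 * ((3 / 2 * (b / p.2)) ^ 2 * (8 * C)) := by
            refine mul_le_mul_of_nonneg_left ?_ h2.le
            exact mul_le_mul (hcosh.trans hy3) i3 i2 (by positivity)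
        _ = (9 / 4 * b ^ 2 * (8 * C)) / p.2 := by field_simp; ring
  -- the limit
  have hmain : Tendsto (fun p : ℝ × ℝ => Real.exp (-((1 / 2 + p.1) * (b / p.2))) *
      (Real.pi / 4 * (p.2 * (Real.exp (b / p.2) - 1)) *
        Phi W p.1 ((p.2 * (Real.exp (b / p.2) - 1))⁻¹ * p.2)) -
      p.2 * ((Real.cosh ((1 / 2 + p.1) * (b / p.2)) - 1) *
      ∫ t in Ioi (0 : ℝ), W p.1 t / ((1 / 2 + p.1) ^ 2 + t ^ 2))) (la a)
      (𝓝 (Real.pi ^ 2 * c * |ξ|)) := by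
    have h1 := (hexp.mul ((hTe.const_mul (Real.pi / 4)).mul hP)).sub herr
    have h2 : 1 * (Real.pi / 4 * b * (2 * c)) - 0 = Real.pi ^ 2 * c * |ξ| := by
      rw [hb]; ring
    rwa [h2] at h1
  refine hmain.congr' ?_
  filter_upwards [ev_small ha 1, ev_small ha b] with p hp hp2
  have h2 : 0 < p.2 := by linarith [hp.1]
  have hτ0 : 0 < b / p.2 := by positivity
  have hτ1 : b / p.2 ≤ 1 := by rw [div_le_one h2]; exact hp2.1
  rw [BB_eq hPB hW hp.2.2.1 hp.2.2.2 hτ0 hτ1]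
  have he : 0 < Real.exp (b / p.2) - 1 := by
    have := Real.add_one_lt_exp hτ0.ne'
    linarith
  have hPhi : Phi W p.1 ((p.2 * (Real.exp (b / p.2) - 1))⁻¹ * p.2) =
      2 / Real.pi * ((Real.exp (b / p.2) - 1)⁻¹ * Psi W p.1 (b / p.2)) := by
    unfold Phi
    have e1 : (p.2 * (Real.exp (b / p.2) - 1))⁻¹ * p.2 = (Real.exp (b / p.2) - 1)⁻¹ := by
      field_simp
    rw [e1]
    have e2 : Real.log (1 + 1 / (Real.exp (b / p.2) - 1)⁻¹) = b / p.2 := by
      rw [one_div, inv_inv, add_sub_cancel, Real.log_exp]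
    rw [e2]
  rw [hPhi, ← hb]
  generalize (∫ t in Ioi (0 : ℝ), W p.1 t / ((1 / 2 + p.1) ^ 2 + t ^ 2)) = I
  generalize Real.cosh ((1 / 2 + p.1) * (b / p.2)) = ch
  generalize Real.exp (-((1 / 2 + p.1) * (b / p.2))) = E1
  generalize Psi W p.1 (b / p.2) = P
  generalize Real.exp (b / p.2) - 1 = e at he
  have h3 := he.ne'
  have h4 := hpi.ne'
  field_simp
  ring

end Pool.Agent.J6H92.GI
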